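import Mathlib

/-! Definitions used in the statement. -/

namespace Pool.Agent.MP_8ca5b0_lc

open MeasureTheory

/-- An optimal (universal) plain machine: a partial computable function on binary strings that
describes every output of any other such function with at most constant overhead. -/
def IsOptimal (U : List Bool →. List Bool) : Prop :=
  Partrec U ∧ ∀ V : List Bool →. List Bool, Partrec V →
    ∃ c : ℕ, ∀ p x : List Bool, x ∈ V p → ∃ q : List Bool, x ∈ U q ∧ q.length ≤ p.length + c

/-- Plain Kolmogorov complexity: the length of a shortest description. -/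
noncomputable def plainC (U : List Bool →. List Bool) (x : List Bool) : ℕ :=
  sInf {n : ℕ | ∃ p : List Bool, p.length = n ∧ x ∈ U p}

/-- The initial-segment complexity of a measure at length `n`. -/
noncomputable def avgC (U : List Bool →. List Bool) (μ : Measure (ℕ → Bool)) (n : ℕ) : ℝ :=
  ∑ x : Fin n → Bool, μ.real {X : ℕ → Bool | ∀ i : Fin n, X i = x i} * (plainC U (List.ofFn x) : ℝ)

/-- Kolmogorov randomness of a measure. -/
def KolmogorovRandom (U : List Bool →. List Bool) (μ : Measure (ℕ → Bool)) : Prop :=
  ∃ d : ℝ, ∃ᶠ n : ℕ in Filter.atTop, (n : ℝ) - d ≤ avgC U μ n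

end Pool.Agent.MP_8ca5b0_lc
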